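import Pool.Agent.Run7.h452.PB.Main

/-!
# MP_24384b_lc, Q1: deterministic partially blind against deterministic counter machines

For every `c ≥ 1` the classes `𝓛_{Rc}(QR-DPBLIND)` and `𝓛_{Rc}(QR-DCOUNTER)` differ, for `c = 0`
they agree.  A single witness, `{aⁿbᵐ : n ≤ m}`, is accepted by a deterministic realtime machine
with one counter and one reversal, and by no deterministic quasi-realtime partially blind machine,
whatever the number of reversals.  The parameter `e` tells whether the input has an end marker;
both conventions are covered.  Definitions (`Machine`, `Step`, `Run`, `reversals`, `langR`,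
`DCounter`, `DPBlind`): `Pool/Agent/Run7/h452/PB/Basic.lean`.
-/

namespace Pool.Agent.Results.MP_24384b_lc.ZeroTestsNeeded

open Run7.h452.PB

theorem result (e : Bool) :
    (∀ c : ℕ, (∀ (A : Type) [Finite A],
      DPBlind e (c : ℕ∞) A = DCounter e (c : ℕ∞) A) ↔ c = 0) ∧
    (∀ c : ℕ∞, 1 ≤ c →
      {w : List Bool | ∃ n m : ℕ, n ≤ m ∧
        w = List.replicate n false ++ List.replicate m true} ∈ DCounter e c Bool) ∧
    ∀ c : ℕ∞,
      {w : List Bool | ∃ n m : ℕ, n ≤ m ∧
        w = List.replicate n false ++ List.replicate m true} ∉ DPBlind e c Bool := by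
  refine ⟨fun c => ⟨fun h => ?_, ?_⟩, fun c hc => Lnm_mem e c hc, fun c => not_dpblind e c⟩
  · by_contra hc
    have h1 : (1 : ℕ∞) ≤ (c : ℕ∞) := by
      exact_mod_cast Nat.one_le_iff_ne_zero.2 hc
    have h2 := Lnm_mem e (c : ℕ∞) h1
    rw [← h Bool] at h2
    exact not_dpblind e _ h2
  · rintro rfl A _
    exact Set.Subset.antisymm (dpblind_le e _ A) (by exact_mod_cast dcounter_zero_le e A)

end Pool.Agent.Results.MP_24384b_lc.ZeroTestsNeeded
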